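import Pool.Agent.H857.TF.Core

/-!
# Project ExoticThreefolds, task T3: residue classes with quadratic nonresidues
-/

set_option autoImplicit false

namespace Pool.Agent.H332.TF

open Pool.Agent.H857.TF

/-- The number of the elements of `ZMod p` without square root. -/
theorem card_nonsq (p : ℕ) [Fact p.Prime] (hp : p ≠ 2) :
    ({x : ZMod p | ¬ IsSquare x}).ncard = (p - 1) / 2 := by
  classical
  have hc : ringChar (ZMod p) ≠ 2 := by rwa [ZMod.ringChar_zmod_n]
  have h1 := quadraticChar_sum_zero hc
  have h2 : ∀ a : ZMod p, quadraticChar (ZMod p) a =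
      1 - (if a = 0 then 1 else 0) - 2 * (if ¬ IsSquare a then 1 else 0) := by
    intro a
    by_cases h0 : a = 0
    · subst h0
      simp
    · by_cases hs : IsSquare a
      · rw [(quadraticChar_one_iff_isSquare h0).2 hs]
        simp [h0, hs]
      · rw [quadraticChar_neg_one_iff_not_isSquare.2 hs]
        simp [h0, hs]
  rw [Finset.sum_congr rfl fun a _ => h2 a, Finset.sum_sub_distrib, Finset.sum_sub_distrib,
    ← Finset.mul_sum, Finset.sum_ite_eq', Finset.sum_boole] at h1
  have h3 : ({x : ZMod p | ¬ IsSquare x}).ncard =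
      (Finset.univ.filter fun a : ZMod p => ¬ IsSquare a).card := by
    rw [← Set.ncard_coe_finset]
    congr 1
    ext x
    simp
  rw [h3]
  simp at h1
  omega

theorem t3 : T3 := by
  intro p _ hp A
  have h4 : (4 : ZMod p) ≠ 0 := by
    have h2 : (2 : ZMod p) ≠ 0 := by
      intro h
      have h' : ((2 : ℕ) : ZMod p) = 0 := by exact_mod_cast h
      rw [ZMod.natCast_eq_zero_iff] at h'
      have := (Nat.prime_dvd_prime_iff_eq (Fact.out : p.Prime) Nat.prime_two).1 h'
      exact hp this
    have : (4 : ZMod p) = 2 * 2 := by norm_num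
    rw [this]
    exact mul_ne_zero h2 h2
  have hinj : Function.Injective fun n : ZMod p => (A : ZMod p) ^ 2 - 4 * n := by
    intro a b h
    have h' : (4 : ZMod p) * a = 4 * b := by
      have := h
      simp only at this
      linear_combination -this
    exact mul_left_cancel₀ h4 h'
  have hsurj : Function.Surjective fun n : ZMod p => (A : ZMod p) ^ 2 - 4 * n :=
    Finite.surjective_of_injective hinj
  have key : ∀ S : Set (ZMod p), {n : ZMod p | (A : ZMod p) ^ 2 - 4 * n ∈ S}.ncard = S.ncard := by
    intro S
    have : S = (fun n : ZMod p => (A : ZMod p) ^ 2 - 4 * n) ''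
        {n : ZMod p | (A : ZMod p) ^ 2 - 4 * n ∈ S} := by
      exact (Set.image_preimage_eq S hsurj).symm
    conv_rhs => rw [this]
    rw [Set.ncard_image_of_injective _ hinj]
  constructor
  · rw [← card_nonsq p hp, ← key {x : ZMod p | ¬ IsSquare x}]
    congr 1
    ext n
    constructor
    · intro h hs
      obtain ⟨w, hw⟩ := hs
      exact h w (by rw [hw]; ring)
    · intro h w hw
      exact h ⟨w, by rw [← hw]; ring⟩
  · have := key {0}
    rw [Set.ncard_singleton] at this
    exact this

end Pool.Agent.H332.TF
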